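import Mathlib

/-! A quadratic holomorphic self-map of the projective plane with no repelling fixed point and
no eigenvalue equal to one at a fixed point. -/

namespace Pool.Agent.Results.MP_10bb55_an.NoRepelling

open MvPolynomial Complex

/-- The map `[F 0 : F 1 : F 2]` read in the affine chart `z i = 1`. -/
noncomputable def chart (F : Fin 3 → MvPolynomial (Fin 3) ℂ) (i : Fin 3) (w : Fin 2 → ℂ) :
    Fin 2 → ℂ :=
  fun j => eval (i.insertNth 1 w) (F (i.succAbove j)) / eval (i.insertNth 1 w) (F i)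

/-- The derivative of the map at the point `[z]`, read in the chart `z i = 1`. -/
noncomputable def D (F : Fin 3 → MvPolynomial (Fin 3) ℂ) (i : Fin 3) (z : Fin 3 → ℂ) :
    Module.End ℂ (Fin 2 → ℂ) :=
  (fderiv ℂ (chart F i) (fun j => z (i.succAbove j) / z i)).toLinearMap

noncomputable def F0 : Fin 3 → MvPolynomial (Fin 3) ℂ :=
  ![C 4 * (X 0 * X 2) + C 2 * (X 1 * X 1 - X 2 * X 2),
    C 4 * (X 1 * X 2) + C I * (X 0 * X 0 - X 2 * X 2), C 4 * (X 2 * X 2)]

lemma ev0 (z : Fin 3 → ℂ) : eval z (F0 0) = 4 * (z 0 * z 2) + 2 * (z 1 * z 1 - z 2 * z 2) := by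
  simp [F0]
lemma ev1 (z : Fin 3 → ℂ) : eval z (F0 1) = 4 * (z 1 * z 2) + I * (z 0 * z 0 - z 2 * z 2) := by
  simp [F0]
lemma ev2 (z : Fin 3 → ℂ) : eval z (F0 2) = 4 * (z 2 * z 2) := by
  simp [F0]

lemma chart2 : chart F0 2 = fun w => ![w 0 + (w 1 * w 1 - 1) / 2, w 1 + I * (w 0 * w 0 - 1) / 4] := by
  funext w j
  have e : (2 : Fin 3).insertNth (α := fun _ => ℂ) 1 w = ![w 0, w 1, 1] := by
    funext k; fin_cases k <;> rfl
  fin_cases j
  · change eval _ (F0 0) / eval _ (F0 2) = _
    rw [ev0, ev2, e]; simp; ring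
  · change eval _ (F0 1) / eval _ (F0 2) = _
    rw [ev1, ev2, e]; simp; ring

lemma chart0 : chart F0 0 = fun w =>
    ![(4 * (w 0 * w 1) + I * (1 - w 1 * w 1)) / (4 * w 1 + 2 * (w 0 * w 0 - w 1 * w 1)),
      4 * (w 1 * w 1) / (4 * w 1 + 2 * (w 0 * w 0 - w 1 * w 1))] := by
  funext w j
  have e : (0 : Fin 3).insertNth (α := fun _ => ℂ) 1 w = ![1, w 0, w 1] := by
    funext k; fin_cases k <;> rfl
  fin_cases j
  · change eval _ (F0 1) / eval _ (F0 0) = _
    rw [ev0, ev1, e]; simp
  · change eval _ (F0 2) / eval _ (F0 0) = _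
    rw [ev0, ev2, e]; simp

lemma dir {g : (Fin 2 → ℂ) → Fin 2 → ℂ} {w v : Fin 2 → ℂ} (hg : DifferentiableAt ℂ g w) (j : Fin 2)
    {a : ℂ} (h : HasDerivAt (fun t : ℂ => g (w + t • v) j) a 0) : fderiv ℂ g w v j = a := by
  have h1 : HasDerivAt (fun t : ℂ => w + t • v) v 0 := by
    simpa using ((hasDerivAt_id (0 : ℂ)).smul_const v).const_add w
  have h2 := (hg.hasFDerivAt.comp_hasDerivAt_of_eq (0 : ℂ) h1 (by simp))
  exact (hasDerivAt_pi.1 h2 j).unique h

lemma D2 (w v : Fin 2 → ℂ) : fderiv ℂ (chart F0 2) w v =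
    ![v 0 + w 1 * v 1, v 1 + I * w 0 * v 0 / 2] := by
  have hd : DifferentiableAt ℂ (chart F0 2) w := by
    rw [chart2, differentiableAt_pi]
    intro j
    fin_cases j <;> simp <;> fun_prop
  have a : ∀ k, HasDerivAt (fun t : ℂ => w k + t * v k) (v k) 0 := fun k => by
    simpa using ((hasDerivAt_id (0 : ℂ)).mul_const (v k)).const_add (w k)
  funext j
  refine dir hd j ?_
  rw [chart2]
  fin_cases j
  · refine ((a 0).add ((((a 1).mul (a 1)).sub_const 1).div_const 2)).congr_deriv ?_
    simp; ring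
  · refine ((a 1).add (((((a 0).mul (a 0)).sub_const 1).const_mul I).div_const 4)).congr_deriv ?_
    simp; ring

lemma D0 (u : ℂ) (hu : 2 * u ^ 3 = I) (v : Fin 2 → ℂ) : fderiv ℂ (chart F0 0) ![u, 0] v =
    ![-2 * v 0 + (2 / u - I / u ^ 4) * v 1, 0] := by
  have hu0 : u ≠ 0 := by rintro rfl; simp [eq_comm] at hu
  have hd : DifferentiableAt ℂ (chart F0 0) ![u, 0] := by
    rw [chart0, differentiableAt_pi]
    intro j
    fin_cases j <;> simp <;> fun_prop (disch := simp [hu0])
  have a : HasDerivAt (fun t : ℂ => u + t * v 0) (v 0) 0 := by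
    simpa using ((hasDerivAt_id (0 : ℂ)).mul_const (v 0)).const_add u
  have b : HasDerivAt (fun t : ℂ => 0 + t * v 1) (v 1) 0 := by
    simpa using ((hasDerivAt_id (0 : ℂ)).mul_const (v 1))
  have d := (b.const_mul 4).add (((a.mul a).sub (b.mul b)).const_mul 2)
  funext j
  refine dir hd j ?_
  rw [chart0]
  fin_cases j
  · refine ((((a.mul b).const_mul 4).add (((b.mul b).const_sub 1).const_mul I)).div d
      (by simp [hu0])).congr_deriv ?_
    simp
    rw [← hu]
    field_simp
    ring
  · refine (((b.mul b).const_mul 4).div d (by simp [hu0])).congr_deriv ?_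
    simp

theorem result : ∃ F : Fin 3 → MvPolynomial (Fin 3) ℂ, (∀ i, (F i).IsHomogeneous 2) ∧
    (∀ z : Fin 3 → ℂ, (∀ i, eval z (F i) = 0) → z = 0) ∧
    ∀ z : Fin 3 → ℂ, z ≠ 0 → (∃ c : ℂ, ∀ i, eval z (F i) = c * z i) →
      ∃ i, z i ≠ 0 ∧ (∃ μ : ℂ, ‖μ‖ < 1 ∧ (D F i z).HasEigenvalue μ) ∧
        ¬ (D F i z).HasEigenvalue 1 := by
  refine ⟨F0, fun i => ?_, fun z h => ?_, fun z hz ⟨c, hc⟩ => ?_⟩
  · have m : ∀ a b : Fin 3, (X a * X b : MvPolynomial (Fin 3) ℂ).IsHomogeneous 2 := fun a b =>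
      (isHomogeneous_X ℂ a).mul (isHomogeneous_X ℂ b)
    fin_cases i
    · exact ((m _ _).C_mul _).add (((m _ _).sub (m _ _)).C_mul _)
    · exact ((m _ _).C_mul _).add (((m _ _).sub (m _ _)).C_mul _)
    · exact (m _ _).C_mul _
  · have h0 := h 0
    have h1 := h 1
    have h2 := h 2
    rw [ev2] at h2
    have e2 : z 2 = 0 := by simpa using h2
    rw [ev0, e2] at h0
    rw [ev1, e2] at h1
    funext k
    fin_cases k
    · simpa using h1
    · simpa using h0
    · exact e2
  have h0 := hc 0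
  have h1 := hc 1
  have h2 := hc 2
  rw [ev0] at h0
  rw [ev1] at h1
  rw [ev2] at h2
  by_cases ht : z 2 = 0
  · have hx : z 0 ≠ 0 := by
      intro hx
      rw [ht, hx] at h0
      apply hz
      funext k
      fin_cases k
      · exact hx
      · simpa using h0
      · exact ht
    have hu : 2 * (z 1 / z 0) ^ 3 = I := by
      rw [ht] at h0 h1
      field_simp
      linear_combination z 1 * h0 - z 0 * h1
    have e : (fun j => z ((0 : Fin 3).succAbove j) / z 0) = ![z 1 / z 0, 0] := by
      funext j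
      fin_cases j
      · rfl
      · change z 2 / z 0 = 0
        rw [ht, zero_div]
    refine ⟨0, hx, ⟨0, by simp, ?_⟩, fun h => ?_⟩
    · refine Module.End.hasEigenvalue_of_hasEigenvector
        (x := ![(2 / (z 1 / z 0) - I / (z 1 / z 0) ^ 4) / 2, 1]) ⟨?_, ?_⟩
      · rw [Module.End.mem_eigenspace_iff, D, e]
        refine (D0 _ hu _).trans ?_
        funext j
        fin_cases j <;> simp
        ring
      · intro h; simpa using congrFun h 1
    · obtain ⟨v, hv⟩ := h.exists_hasEigenvector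
      have h3 := hv.apply_eq_smul
      rw [D, e, one_smul] at h3
      have h4 := (D0 _ hu v).symm.trans h3
      have a : 0 = v 1 := congrFun h4 1
      have b : -2 * v 0 + _ * v 1 = v 0 := congrFun h4 0
      apply hv.2
      funext j
      fin_cases j
      · change v 0 = 0
        rw [← a] at b
        linear_combination (-1 / 3 : ℂ) * b
      · exact a.symm
  · have hc4 : c = 4 * z 2 := mul_right_cancel₀ ht (by linear_combination -h2)
    set x := z 0 / z 2 with hx
    set y := z 1 / z 2 with hy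
    have ex : x * x = 1 := by
      rw [hx]; field_simp
      refine mul_left_cancel₀ I_ne_zero ?_
      rw [hc4] at h1
      linear_combination h1
    have ey : y * y = 1 := by
      rw [hy]; field_simp
      rw [hc4] at h0
      linear_combination h0 / 2
    have e : (fun j => z ((2 : Fin 3).succAbove j) / z 2) = ![x, y] := by
      funext j
      fin_cases j <;> rfl
    have hy0 : y ≠ 0 := by rintro h; simp [h] at ey
    have hx0 : x ≠ 0 := by rintro h; simp [h] at ex
    refine ⟨2, ht, ⟨(1 - I * (x * y)) / 2, ?_, ?_⟩, fun h => ?_⟩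
    · have : x * y = 1 ∨ x * y = -1 := mul_self_eq_one_iff.1 (by
        linear_combination (y * y) * ex + ey)
      rw [← sq_lt_one_iff₀ (norm_nonneg _), Complex.sq_norm, normSq_apply]
      rcases this with h | h <;> rw [h] <;> norm_num
    · refine Module.End.hasEigenvalue_of_hasEigenvector
        (x := ![y, -(1 + I * (x * y)) / 2]) ⟨?_, ?_⟩
      · rw [Module.End.mem_eigenspace_iff, D, e]
        refine (D2 _ _).trans ?_
        funext j
        fin_cases j <;> simp
        · ring
        · linear_combination (-(x * y) ^ 2 / 4) * I_mul_I + (y * y / 4) * ex + (1 / 4 : ℂ) * ey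
      · intro h; exact hy0 (congrFun h 0)
    · obtain ⟨v, hv⟩ := h.exists_hasEigenvector
      have h3 := hv.apply_eq_smul
      rw [D, e, one_smul] at h3
      have h4 := (D2 _ v).symm.trans h3
      have a : v 0 + y * v 1 = v 0 := congrFun h4 0
      have b : v 1 + I * x * v 0 / 2 = v 1 := congrFun h4 1
      apply hv.2
      funext j
      fin_cases j
      · simpa [hx0] using b
      · simpa [hy0] using a

end Pool.Agent.Results.MP_10bb55_an.NoRepelling
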